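import Mathlib

open Filter Topology Set Function
open scoped BoundedContinuousFunction ENNReal

namespace Pool.Agent.Results.MP_e22ce5_an.SpadeNotNuclear


universe u v

/-- `E` (a vector space over `𝕜` with a uniform structure) is a Frechet space: the uniform
structure is compatible with the additive group, the space is Hausdorff and complete, and its
topology comes from an increasing sequence of seminorms. -/
structure IsFrechet (𝕜 : Type) (E : Type u) [RCLike 𝕜] [AddCommGroup E] [Module 𝕜 E]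
    [UniformSpace E] : Prop where
  uniformAddGroup : IsUniformAddGroup E
  hausdorff : T2Space E
  complete : CompleteSpace E
  seminorms : ∃ p : ℕ → Seminorm 𝕜 E, Monotone p ∧ WithSeminorms p

section local_banach

variable {𝕜 : Type} {E : Type u} [RCLike 𝕜] [AddCommGroup E] [Module 𝕜 E]

/-- The vector space `E` equipped with the seminorm `p`. -/
def WithSN (_p : Seminorm 𝕜 E) : Type u := E

noncomputable instance (p : Seminorm 𝕜 E) : SeminormedAddCommGroup (WithSN p) :=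
  p.toSeminormedAddCommGroup

noncomputable instance (p : Seminorm 𝕜 E) : NormedSpace 𝕜 (WithSN p) where
  toModule := (inferInstance : Module 𝕜 E)
  norm_smul_le := fun a b => le_of_eq (map_smul_eq_mul p a b)

/-- The local Banach space: the Hausdorff completion of `(E, p)`, which is the completion of
`E / p⁻¹(0)` normed by `p`. -/
def LocalBanach (p : Seminorm 𝕜 E) : Type u := UniformSpace.Completion (WithSN p)

noncomputable instance (p : Seminorm 𝕜 E) : NormedAddCommGroup (LocalBanach p) :=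
  (inferInstance : NormedAddCommGroup (UniformSpace.Completion (WithSN p)))

noncomputable instance (p : Seminorm 𝕜 E) : NormedSpace 𝕜 (LocalBanach p) :=
  (inferInstance : NormedSpace 𝕜 (UniformSpace.Completion (WithSN p)))

/-- The canonical map from `E` to its local Banach space. -/
noncomputable def toLocal (p : Seminorm 𝕜 E) (x : E) : LocalBanach p :=
  ((show WithSN p from x : WithSN p) : UniformSpace.Completion (WithSN p))

/-- Nuclear operators between normed spaces. -/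
def IsNuclearOp {A B : Type u} [NormedAddCommGroup A] [NormedSpace 𝕜 A] [NormedAddCommGroup B]
    [NormedSpace 𝕜 B] (T : A →L[𝕜] B) : Prop :=
  ∃ (f : ℕ → (A →L[𝕜] 𝕜)) (y : ℕ → B),
    Summable (fun n => ‖f n‖ * ‖y n‖) ∧ ∀ x, HasSum (fun n => f n x • y n) (T x)

/-- The canonical map from the local Banach space of `q` to that of `p` exists and is nuclear. -/
def NuclearLink (q p : Seminorm 𝕜 E) : Prop :=
  ∃ T : LocalBanach q →L[𝕜] LocalBanach p, (∀ x : E, T (toLocal q x) = toLocal p x) ∧ IsNuclearOp T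

end local_banach

/-- Nuclear locally convex spaces, in the sense of Grothendieck: for every continuous seminorm `p`
there is a continuous seminorm `q ≥ p` such that the canonical map between the local Banach spaces
of `q` and `p` is nuclear. -/
def IsNuclearSpace (𝕜 : Type) (E : Type u) [RCLike 𝕜] [AddCommGroup E] [Module 𝕜 E]
    [TopologicalSpace E] : Prop :=
  ∀ p : Seminorm 𝕜 E, Continuous p → ∃ q : Seminorm 𝕜 E, Continuous q ∧ p ≤ q ∧ NuclearLink q p

/-- The Hilbert space `ℓ₂` of square summable sequences. -/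
def Ell2 (𝕜 : Type) [RCLike 𝕜] : Type := lp (fun _ : ℕ => 𝕜) 2

noncomputable instance (𝕜 : Type) [RCLike 𝕜] : NormedAddCommGroup (Ell2 𝕜) :=
  (inferInstance : NormedAddCommGroup (lp (fun _ : ℕ => 𝕜) 2))

noncomputable instance (𝕜 : Type) [RCLike 𝕜] : InnerProductSpace 𝕜 (Ell2 𝕜) :=
  (inferInstance : InnerProductSpace 𝕜 (lp (fun _ : ℕ => 𝕜) 2))

instance (𝕜 : Type) [RCLike 𝕜] : CompleteSpace (Ell2 𝕜) :=
  (inferInstance : CompleteSpace (lp (fun _ : ℕ => 𝕜) 2))

/-- Every continuous linear map `A → ℓ₂` extends along `i : A → B` to a continuous linear map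
`B → ℓ₂`. -/
def ExtendsAlong {𝕜 : Type} {A : Type u} {B : Type v} [RCLike 𝕜] [AddCommGroup A] [Module 𝕜 A]
    [TopologicalSpace A] [AddCommGroup B] [Module 𝕜 B] [TopologicalSpace B] (i : A →L[𝕜] B) :
    Prop :=
  ∀ g : A →L[𝕜] Ell2 𝕜, ∃ f : B →L[𝕜] Ell2 𝕜, ∀ x : A, f (i x) = g x

/-- Condition 1: continuous linear maps from subspaces of `X` to `ℓ₂` extend to `X`. -/
def SubspaceExtension (𝕜 : Type) (X : Type u) [RCLike 𝕜] [AddCommGroup X] [Module 𝕜 X]
    [TopologicalSpace X] : Prop :=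
  ∀ Y : Submodule 𝕜 X, ExtendsAlong Y.subtypeL

/-- Condition 2: continuous linear maps from `X` to `ℓ₂` extend to all Frechet superspaces
(given as topological embeddings `i : X → W`). -/
def SuperspaceExtension (𝕜 : Type) (X : Type u) [RCLike 𝕜] [AddCommGroup X] [Module 𝕜 X]
    [TopologicalSpace X] : Prop :=
  ∀ (W : Type v) [AddCommGroup W] [Module 𝕜 W] [UniformSpace W], IsFrechet 𝕜 W →
    ∀ i : X →L[𝕜] W, IsEmbedding i → ExtendsAlong i

/-! ### Averages over signs and the two-summing inequality -/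
section averages


section avg

variable {E : Type*} [AddCommGroup E]

/-- average over all choices of signs of `F (x ± s₁ ± s₂ ...)` -/
noncomputable def avg : List E → (E → ℝ) → E → ℝ
  | [], F, x => F x
  | s :: L, F, x => (avg L F (x + s) + avg L F (x - s)) / 2

theorem avg_mono (L : List E) {F G : E → ℝ} (h : ∀ x, F x ≤ G x) (x : E) :
    avg L F x ≤ avg L G x := by
  induction L generalizing x with
  | nil => exact h x
  | cons s L ih =>
    simp only [avg]
    linarith [ih (x + s), ih (x - s)]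

theorem avg_const_mul (L : List E) (c : ℝ) (F : E → ℝ) (x : E) :
    avg L (fun y => c * F y) x = c * avg L F x := by
  induction L generalizing x with
  | nil => rfl
  | cons s L ih =>
    simp only [avg, ih]
    ring

theorem avg_add (L : List E) (F G : E → ℝ) (x : E) :
    avg L (fun y => F y + G y) x = avg L F x + avg L G x := by
  induction L generalizing x with
  | nil => rfl
  | cons s L ih =>
    simp only [avg, ih]
    ring

theorem avg_summable (L : List E) (F : ℕ → E → ℝ) (h : ∀ x, Summable fun n => F n x) (x : E) :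
    (Summable fun n => avg L (F n) x) ∧ avg L (fun y => ∑' n, F n y) x = ∑' n, avg L (F n) x := by
  induction L generalizing x with
  | nil => exact ⟨h x, rfl⟩
  | cons s L ih =>
    simp only [avg]
    refine ⟨((ih (x + s)).1.add (ih (x - s)).1).div_const 2, ?_⟩
    rw [(ih (x + s)).2, (ih (x - s)).2, ← (ih (x + s)).1.tsum_add (ih (x - s)).1, tsum_div_const]

theorem avg_cosh (L : List E) (l : E →+ ℝ) (x : E) :
    avg L (fun y => Real.cosh (2 * l y)) x ≤
      Real.cosh (2 * l x) * Real.exp (2 * (L.map fun s => (l s) ^ 2).sum) := by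
  induction L generalizing x with
  | nil => simp [avg]
  | cons s L ih =>
    simp only [avg, List.map_cons, List.sum_cons]
    have h1 := ih (x + s)
    have h2 := ih (x - s)
    set S := (L.map fun s => (l s) ^ 2).sum
    have h3 : Real.cosh (2 * l (x + s)) + Real.cosh (2 * l (x - s)) =
        2 * (Real.cosh (2 * l x) * Real.cosh (2 * l s)) := by
      rw [map_add, map_sub, mul_add, mul_sub, Real.cosh_add, Real.cosh_sub]
      ring
    have h4 : Real.cosh (2 * l s) ≤ Real.exp (2 * (l s) ^ 2) := by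
      refine (Real.cosh_le_exp_half_sq _).trans (le_of_eq ?_)
      congr 1
      ring
    have h5 : 0 < Real.cosh (2 * l x) := Real.cosh_pos _
    calc _ ≤ (Real.cosh (2 * l (x + s)) + Real.cosh (2 * l (x - s))) * Real.exp (2 * S) / 2 := by
          linarith
      _ = Real.cosh (2 * l x) * Real.cosh (2 * l s) * Real.exp (2 * S) := by rw [h3]; ring
      _ ≤ Real.cosh (2 * l x) * Real.exp (2 * (l s) ^ 2) * Real.exp (2 * S) := by gcongr
      _ = _ := by rw [mul_assoc, ← Real.exp_add]; congr 2; ring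

end avg

theorem avg_norm_sq {𝕜 E H : Type*} [RCLike 𝕜] [AddCommGroup E] [Module 𝕜 E]
    [NormedAddCommGroup H] [InnerProductSpace 𝕜 H] (g : E →ₗ[𝕜] H) (L : List E) (x : E) :
    avg L (fun y => ‖g y‖ ^ 2) x = ‖g x‖ ^ 2 + (L.map fun s => ‖g s‖ ^ 2).sum := by
  induction L generalizing x with
  | nil => simp [avg]
  | cons s L ih =>
    simp only [avg, ih, List.map_cons, List.sum_cons]
    have := parallelogram_law_with_norm 𝕜 (g x) (g s)
    rw [map_add, map_sub]
    nlinarith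

/-- the weight `1 + log (n+1)` -/
noncomputable def w (n : ℕ) : ℝ := 1 + Real.log (n + 1)

theorem one_le_w (n : ℕ) : 1 ≤ w n := by
  unfold w
  have : 0 ≤ Real.log ((n : ℝ) + 1) := Real.log_nonneg (by linarith [Nat.cast_nonneg (α := ℝ) n])
  linarith

/-- the summable sequence `1/(n+1)^2` -/
noncomputable def a (n : ℕ) : ℝ := 1 / ((n : ℝ) + 1) ^ 2

theorem a_pos (n : ℕ) : 0 < a n := by unfold a; positivity

theorem a_summable : Summable a := by
  have h := (summable_nat_add_iff 1).2 (Real.summable_one_div_nat_pow.2 (by norm_num : 1 < 2))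
  refine h.congr fun n => ?_
  simp [a]

theorem key_one (n : ℕ) (u Y : ℝ) (hY : 1 ≤ Y) (h : a n * Real.cosh (2 * u) ≤ Y) :
    u ^ 2 ≤ 2 * Y * (w n) ^ 2 := by
  have hn : (0 : ℝ) < (n : ℝ) + 1 := by positivity
  have h1 : Real.cosh (2 * u) ≤ Y * ((n : ℝ) + 1) ^ 2 := by
    unfold a at h
    rw [div_mul_eq_mul_div, one_mul, div_le_iff₀ (by positivity)] at h
    exact h
  have h2 : Real.exp (2 * |u|) ≤ 2 * Y * ((n : ℝ) + 1) ^ 2 := by
    have h3 : Real.exp (2 * |u|) ≤ 2 * Real.cosh (2 * |u|) := by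
      rw [Real.cosh_eq]
      linarith [Real.exp_pos (-(2 * |u|))]
    have h4 : Real.cosh (2 * |u|) = Real.cosh (2 * u) := by
      rw [← Real.cosh_abs (2 * u), abs_mul, abs_two]
    linarith
  have h5 : 2 * |u| ≤ Real.log (2 * Y) + 2 * Real.log ((n : ℝ) + 1) := by
    have h6 := (Real.le_log_iff_exp_le (by positivity)).2 h2
    rw [Real.log_mul (by positivity) (by positivity), Real.log_pow] at h6
    push_cast at h6
    exact h6
  have hw := one_le_w n
  have hlog : Real.log ((n : ℝ) + 1) = w n - 1 := by unfold w; ring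
  have hroot : Real.log (2 * Y) ≤ 2 * (√(2 * Y) - 1) := by
    have h7 := Real.log_le_sub_one_of_pos (Real.sqrt_pos.2 (by positivity : 0 < 2 * Y))
    rw [Real.log_sqrt (by positivity)] at h7
    linarith
  have hs1 : 1 ≤ √(2 * Y) := Real.one_le_sqrt.2 (by linarith)
  have h8 : |u| ≤ √(2 * Y) * w n := by
    rw [hlog] at h5
    nlinarith
  calc u ^ 2 = |u| ^ 2 := (sq_abs u).symm
    _ ≤ (√(2 * Y) * w n) ^ 2 := by gcongr
    _ = 2 * Y * w n ^ 2 := by rw [mul_pow, Real.sq_sqrt (by positivity)]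

section two_summing

variable {𝕜 E H : Type*} [RCLike 𝕜] [AddCommGroup E] [Module 𝕜 E]
    [NormedAddCommGroup H] [InnerProductSpace 𝕜 H]

theorem re_add (z : E →ₗ[𝕜] 𝕜) : ∃ l : E →+ ℝ, ∀ x, l x = RCLike.re (z x) :=
  ⟨(RCLike.re : 𝕜 →+ ℝ).comp z.toAddMonoidHom, fun x => rfl⟩

theorem im_add (z : E →ₗ[𝕜] 𝕜) : ∃ l : E →+ ℝ, ∀ x, l x = RCLike.im (z x) :=
  ⟨(RCLike.im : 𝕜 →+ ℝ).comp z.toAddMonoidHom, fun x => rfl⟩

/-- The constant in the two-summing inequality. -/
noncomputable def K (C : ℝ) : ℝ := 4 * C ^ 2 * (2 * Real.exp 2 * ∑' n, a n)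

theorem two_summing_unit (g : E →ₗ[𝕜] H) (z : ℕ → E →ₗ[𝕜] 𝕜) (C : ℝ) (hC : 0 ≤ C)
    (hz : ∀ x, ∃ B : ℝ, ∀ n, ‖z n x‖ ≤ B)
    (hg : ∀ x (B : ℝ), 0 ≤ B → (∀ n, ‖z n x‖ ≤ B * w n) → ‖g x‖ ≤ C * B)
    (L : List E) (hL : ∀ n, (L.map fun s => ‖z n s‖ ^ 2).sum ≤ 1) :
    (L.map fun s => ‖g s‖ ^ 2).sum ≤ K C := by
  classical
  set F : ℕ → E → ℝ := fun n x =>
    a n * (Real.cosh (2 * RCLike.re (z n x)) + Real.cosh (2 * RCLike.im (z n x))) with hF
  have hFnn : ∀ n x, 0 ≤ F n x := by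
    intro n x
    have := a_pos n
    have := Real.cosh_pos (2 * RCLike.re (z n x))
    have := Real.cosh_pos (2 * RCLike.im (z n x))
    simp only [hF]
    positivity
  have hsum : ∀ x, Summable fun n => F n x := by
    intro x
    obtain ⟨B, hB⟩ := hz x
    refine Summable.of_nonneg_of_le (hFnn · x) (fun n => ?_)
      (a_summable.mul_right (Real.cosh (2 * B) + Real.cosh (2 * B)))
    have hB0 : 0 ≤ B := (norm_nonneg _).trans (hB 0)
    have h1 : Real.cosh (2 * RCLike.re (z n x)) ≤ Real.cosh (2 * B) := by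
      rw [Real.cosh_le_cosh, abs_mul, abs_mul, abs_two, abs_of_nonneg hB0]
      have := (RCLike.abs_re_le_norm (z n x)).trans (hB n)
      linarith
    have h2 : Real.cosh (2 * RCLike.im (z n x)) ≤ Real.cosh (2 * B) := by
      rw [Real.cosh_le_cosh, abs_mul, abs_mul, abs_two, abs_of_nonneg hB0]
      have := (RCLike.abs_im_le_norm (z n x)).trans (hB n)
      linarith
    simp only [hF]
    have := a_pos n
    gcongr
  set Y : E → ℝ := fun x => ∑' n, F n x with hY
  have hYF : ∀ n x, F n x ≤ Y x := fun n x =>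
    (hsum x).le_tsum n (fun m _ => hFnn m x)
  have hY1 : ∀ x, 1 ≤ Y x := by
    intro x
    refine le_trans ?_ (hYF 0 x)
    simp only [hF, a]
    have := Real.one_le_cosh (2 * RCLike.re (z 0 x))
    have := Real.one_le_cosh (2 * RCLike.im (z 0 x))
    norm_num
    linarith
  have hgY : ∀ x, ‖g x‖ ^ 2 ≤ 4 * C ^ 2 * Y x := by
    intro x
    have h1 : ∀ n, ‖z n x‖ ≤ √(4 * Y x) * w n := by
      intro n
      have hcr : a n * Real.cosh (2 * RCLike.re (z n x)) ≤ Y x := by
        refine le_trans ?_ (hYF n x)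
        simp only [hF]
        have := a_pos n
        have := Real.cosh_pos (2 * RCLike.im (z n x))
        nlinarith
      have hci : a n * Real.cosh (2 * RCLike.im (z n x)) ≤ Y x := by
        refine le_trans ?_ (hYF n x)
        simp only [hF]
        have := a_pos n
        have := Real.cosh_pos (2 * RCLike.re (z n x))
        nlinarith
      have k1 := key_one n _ _ (hY1 x) hcr
      have k2 := key_one n _ _ (hY1 x) hci
      have hw := one_le_w n
      have h3 : ‖z n x‖ ^ 2 ≤ (√(4 * Y x) * w n) ^ 2 := by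
        rw [mul_pow, Real.sq_sqrt (by linarith [hY1 x]), RCLike.norm_sq_eq_def]
        nlinarith
      exact le_of_sq_le_sq h3 (by positivity)
    have h2 := hg x _ (Real.sqrt_nonneg _) h1
    calc ‖g x‖ ^ 2 ≤ (C * √(4 * Y x)) ^ 2 := by gcongr
      _ = 4 * C ^ 2 * Y x := by
        rw [mul_pow, Real.sq_sqrt (by linarith [hY1 x])]; ring
  have e1 := avg_norm_sq g L 0
  have e2 : avg L (fun y => ‖g y‖ ^ 2) 0 ≤ avg L (fun y => 4 * C ^ 2 * Y y) 0 :=
    avg_mono L hgY 0
  rw [avg_const_mul, (avg_summable L F hsum 0).2] at e2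
  have e3 : ∀ n, avg L (F n) 0 ≤ a n * (2 * Real.exp 2) := by
    intro n
    simp only [hF]
    rw [avg_const_mul, avg_add]
    obtain ⟨lr, hlr⟩ := re_add (z n)
    obtain ⟨li, hli⟩ := im_add (z n)
    have c1 := avg_cosh L lr 0
    have c2 := avg_cosh L li 0
    simp only [hlr, hli, map_zero, mul_zero, Real.cosh_zero, one_mul] at c1 c2
    have s1 : (L.map fun s => (RCLike.re (z n s)) ^ 2).sum ≤ 1 := by
      refine le_trans (List.sum_le_sum fun s _ => ?_) (hL n)
      rw [← sq_abs]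
      gcongr
      exact RCLike.abs_re_le_norm _
    have s2 : (L.map fun s => (RCLike.im (z n s)) ^ 2).sum ≤ 1 := by
      refine le_trans (List.sum_le_sum fun s _ => ?_) (hL n)
      rw [← sq_abs]
      gcongr
      exact RCLike.abs_im_le_norm _
    have t1 : Real.exp (2 * (L.map fun s => (RCLike.re (z n s)) ^ 2).sum) ≤ Real.exp 2 :=
      Real.exp_le_exp.2 (by linarith)
    have t2 : Real.exp (2 * (L.map fun s => (RCLike.im (z n s)) ^ 2).sum) ≤ Real.exp 2 :=
      Real.exp_le_exp.2 (by linarith)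
    have := a_pos n
    gcongr
    linarith
  have e4 : ∑' n, avg L (F n) 0 ≤ ∑' n, a n * (2 * Real.exp 2) :=
    (avg_summable L F hsum 0).1.tsum_le_tsum e3 (a_summable.mul_right _)
  rw [tsum_mul_right] at e4
  rw [map_zero, norm_zero] at e1
  have e5 : (L.map fun s => ‖g s‖ ^ 2).sum = avg L (fun y => ‖g y‖ ^ 2) 0 := by
    rw [e1]; ring
  rw [e5]
  refine e2.trans ?_
  unfold K
  have : 0 ≤ 4 * C ^ 2 := by positivity
  nlinarith

theorem K_nonneg (C : ℝ) : 0 ≤ K C := by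
  have : 0 ≤ ∑' n, a n := tsum_nonneg fun n => (a_pos n).le
  unfold K
  positivity

theorem two_summing (g : E →ₗ[𝕜] H) (z : ℕ → E →ₗ[𝕜] 𝕜) (C : ℝ) (hC : 0 ≤ C)
    (hz : ∀ x, ∃ B : ℝ, ∀ n, ‖z n x‖ ≤ B)
    (hg : ∀ x (B : ℝ), 0 ≤ B → (∀ n, ‖z n x‖ ≤ B * w n) → ‖g x‖ ≤ C * B)
    (L : List E) (t : ℝ) (ht : 0 < t) (hL : ∀ n, (L.map fun s => ‖z n s‖ ^ 2).sum ≤ t) :
    (L.map fun s => ‖g s‖ ^ 2).sum ≤ K C * t := by
  set c : 𝕜 := (((√t)⁻¹ : ℝ) : 𝕜) with hc
  have hcn : ‖c‖ ^ 2 = t⁻¹ := by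
    rw [hc, RCLike.norm_ofReal, sq_abs, inv_pow, Real.sq_sqrt ht.le]
  have h := two_summing_unit g z C hC hz hg (L.map fun s => c • s) (by
    intro n
    rw [List.map_map]
    have : ((fun s => ‖z n s‖ ^ 2) ∘ fun s => c • s) = fun s => t⁻¹ * ‖z n s‖ ^ 2 := by
      funext s
      simp only [Function.comp_apply, map_smul, norm_smul, mul_pow, hcn]
    rw [this, List.sum_map_mul_left]
    calc t⁻¹ * (L.map fun s => ‖z n s‖ ^ 2).sum ≤ t⁻¹ * t := by
          gcongr
          exact hL n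
      _ = 1 := inv_mul_cancel₀ ht.ne')
  rw [List.map_map] at h
  have : ((fun s => ‖g s‖ ^ 2) ∘ fun s => c • s) = fun s => t⁻¹ * ‖g s‖ ^ 2 := by
    funext s
    simp only [Function.comp_apply, map_smul, norm_smul, mul_pow, hcn]
  rw [this, List.sum_map_mul_left] at h
  rw [inv_mul_le_iff₀ ht] at h
  linarith

end two_summing


end averages

/-! ### Pietsch domination -/
section pietsch


variable {𝕜 E H : Type*} [RCLike 𝕜] [AddCommGroup E] [Module 𝕜 E]
    [NormedAddCommGroup H] [InnerProductSpace 𝕜 H]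

/-- the bounded function `n ↦ ‖z n x‖^2` -/
noncomputable def phi (z : ℕ → E →ₗ[𝕜] 𝕜) (hz : ∀ x, ∃ B : ℝ, ∀ n, ‖z n x‖ ≤ B) (x : E) :
    ℕ →ᵇ ℝ :=
  BoundedContinuousFunction.ofNormedAddCommGroupDiscrete (fun n => ‖z n x‖ ^ 2)
    ((hz x).choose ^ 2) (by
      intro n
      rw [Real.norm_of_nonneg (by positivity)]
      have := (hz x).choose_spec n
      gcongr)

theorem phi_apply (z : ℕ → E →ₗ[𝕜] 𝕜) (hz : ∀ x, ∃ B : ℝ, ∀ n, ‖z n x‖ ≤ B) (x : E) (n : ℕ) :
    phi z hz x n = ‖z n x‖ ^ 2 := rfl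

/-- `K φ_x - ‖g x‖^2` -/
noncomputable def beta (g : E →ₗ[𝕜] H) (z : ℕ → E →ₗ[𝕜] 𝕜)
    (hz : ∀ x, ∃ B : ℝ, ∀ n, ‖z n x‖ ≤ B) (k : ℝ) (x : E) : ℕ →ᵇ ℝ :=
  k • phi z hz x - (‖g x‖ ^ 2) • (1 : ℕ →ᵇ ℝ)

theorem beta_apply (g : E →ₗ[𝕜] H) (z : ℕ → E →ₗ[𝕜] 𝕜)
    (hz : ∀ x, ∃ B : ℝ, ∀ n, ‖z n x‖ ≤ B) (k : ℝ) (x : E) (n : ℕ) :
    beta g z hz k x n = k * ‖z n x‖ ^ 2 - ‖g x‖ ^ 2 := by
  simp [beta, phi_apply]

theorem beta_smul (g : E →ₗ[𝕜] H) (z : ℕ → E →ₗ[𝕜] 𝕜)
    (hz : ∀ x, ∃ B : ℝ, ∀ n, ‖z n x‖ ≤ B) (k : ℝ) (x : E) (t : ℝ) (ht : 0 ≤ t) :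
    beta g z hz k (((√t : ℝ) : 𝕜) • x) = t • beta g z hz k x := by
  have hc : ‖((√t : ℝ) : 𝕜)‖ ^ 2 = t := by
    rw [RCLike.norm_ofReal, sq_abs, Real.sq_sqrt ht]
  ext n
  rw [beta_apply, BoundedContinuousFunction.coe_smul]
  simp only [beta_apply, map_smul, norm_smul, norm_mul, mul_pow, hc, smul_eq_mul]
  ring

theorem sum_beta_apply (g : E →ₗ[𝕜] H) (z : ℕ → E →ₗ[𝕜] 𝕜)
    (hz : ∀ x, ∃ B : ℝ, ∀ n, ‖z n x‖ ≤ B) (k : ℝ) (L : List E) (n : ℕ) :
    (L.map (beta g z hz k)).sum n =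
      k * (L.map fun s => ‖z n s‖ ^ 2).sum - (L.map fun s => ‖g s‖ ^ 2).sum := by
  induction L with
  | nil => simp
  | cons s L ih =>
    simp only [List.map_cons, List.sum_cons, BoundedContinuousFunction.add_apply, ih, beta_apply]
    ring

/-- Pietsch domination: abstract form with a positive functional. -/
theorem exists_functional (g : E →ₗ[𝕜] H) (z : ℕ → E →ₗ[𝕜] 𝕜)
    (hz : ∀ x, ∃ B : ℝ, ∀ n, ‖z n x‖ ≤ B) (k : ℝ) (hk : 0 < k)
    (hL : ∀ (L : List E) (t : ℝ), 0 < t → (∀ n, (L.map fun s => ‖z n s‖ ^ 2).sum ≤ t) →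
      (L.map fun s => ‖g s‖ ^ 2).sum ≤ k * t) :
    ∃ f : StrongDual ℝ (ℕ →ᵇ ℝ), (∀ ψ : ℕ →ᵇ ℝ, (∀ n, 0 ≤ ψ n) → 0 ≤ f ψ) ∧
      ∀ x, ‖g x‖ ^ 2 ≤ f (phi z hz x) := by
  set s : Set (ℕ →ᵇ ℝ) := {ψ | ∃ d : ℝ, 0 < d ∧ ∀ n, ψ n ≤ -d} with hs
  set t : Set (ℕ →ᵇ ℝ) := {b | ∃ L : List E, b = (L.map (beta g z hz k)).sum} with ht
  have hs1 : Convex ℝ s := by
    rintro x ⟨d, hd, hx⟩ y ⟨e, he, hy⟩ α β hα hβ hαβ
    refine ⟨min d e, lt_min hd he, fun n => ?_⟩
    simp only [BoundedContinuousFunction.add_apply, BoundedContinuousFunction.coe_smul,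
      smul_eq_mul]
    have h1 : x n ≤ -min d e := (hx n).trans (neg_le_neg (min_le_left _ _))
    have h2 : y n ≤ -min d e := (hy n).trans (neg_le_neg (min_le_right _ _))
    calc α * x n + β * y n ≤ α * (-min d e) + β * (-min d e) := by gcongr
      _ = (α + β) * (-min d e) := by ring
      _ = -min d e := by rw [hαβ, one_mul]
  have hs2 : IsOpen s := by
    rw [Metric.isOpen_iff]
    rintro x ⟨d, hd, hx⟩
    refine ⟨d / 2, by positivity, fun y hy => ⟨d / 2, by positivity, fun n => ?_⟩⟩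
    rw [Metric.mem_ball] at hy
    have h1 := (BoundedContinuousFunction.dist_coe_le_dist (f := y) (g := x) n)
    rw [Real.dist_eq] at h1
    have h2 := (abs_le.1 (h1.trans hy.le)).2
    linarith [hx n]
  have ht1 : Convex ℝ t := by
    rintro x ⟨L, rfl⟩ y ⟨M, rfl⟩ α β hα hβ hαβ
    refine ⟨(L.map fun s => ((√α : ℝ) : 𝕜) • s) ++ (M.map fun s => ((√β : ℝ) : 𝕜) • s), ?_⟩
    rw [List.map_append, List.sum_append, List.map_map, List.map_map]
    congr 1
    · have : (beta g z hz k ∘ fun s => ((√α : ℝ) : 𝕜) • s) = fun s => α • beta g z hz k s := by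
        funext s; exact beta_smul g z hz k s α hα
      rw [this, List.smul_sum, List.map_map]
      rfl
    · have : (beta g z hz k ∘ fun s => ((√β : ℝ) : 𝕜) • s) = fun s => β • beta g z hz k s := by
        funext s; exact beta_smul g z hz k s β hβ
      rw [this, List.smul_sum, List.map_map]
      rfl
  have hdisj : Disjoint s t := by
    rw [Set.disjoint_left]
    rintro x ⟨d, hd, hx⟩ ⟨L, rfl⟩
    set G := (L.map fun s => ‖g s‖ ^ 2).sum with hG
    have h1 : ∀ n, (L.map fun s => ‖z n s‖ ^ 2).sum ≤ (G - d / 2) / k := by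
      intro n
      have := hx n
      rw [sum_beta_apply] at this
      rw [le_div_iff₀ hk]
      linarith
    have h2 : 0 < (G - d / 2) / k := by
      have h3 : 0 ≤ (L.map fun s => ‖z 0 s‖ ^ 2).sum :=
        List.sum_nonneg (by
          intro x hx
          obtain ⟨s, -, rfl⟩ := List.mem_map.1 hx
          positivity)
      have := hx 0
      rw [sum_beta_apply] at this
      have : d ≤ G := by nlinarith
      apply div_pos _ hk
      linarith
    have h4 := hL L _ h2 h1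
    rw [mul_div_cancel₀ _ hk.ne'] at h4
    linarith
  obtain ⟨f, u, hfs, hft⟩ := geometric_hahn_banach_open hs1 hs2 ht1 hdisj
  have hu0 : u ≤ 0 := by
    have := hft 0 ⟨[], by simp⟩
    simpa using this
  have hone : ∀ ε : ℝ, 0 < ε → f (-(ε • (1 : ℕ →ᵇ ℝ))) < u := by
    intro ε hε
    apply hfs
    exact ⟨ε, hε, fun n => by simp⟩
  have hf1 : 0 < f 1 := by
    have := hone 1 one_pos
    rw [one_smul, map_neg] at this
    linarith
  have hu : u = 0 := by
    refine le_antisymm hu0 ?_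
    by_contra hneg
    push Not at hneg
    have h1 := hone (-u / (2 * f 1)) (by apply div_pos <;> linarith)
    rw [map_neg, map_smul, smul_eq_mul] at h1
    have h2 : -u / (2 * f 1) * f 1 = -u / 2 := by field_simp
    rw [h2] at h1
    linarith
  subst hu
  have hpos : ∀ ψ : ℕ →ᵇ ℝ, (∀ n, 0 ≤ ψ n) → 0 ≤ f ψ := by
    intro ψ hψ
    by_contra hneg
    push Not at hneg
    have h1 : f (-(ψ + ((-f ψ) / (2 * f 1)) • (1 : ℕ →ᵇ ℝ))) < 0 := by
      apply hfs
      have : 0 < (-f ψ) / (2 * f 1) := by apply div_pos <;> linarith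
      refine ⟨_, this, fun n => ?_⟩
      have := hψ n
      simp only [BoundedContinuousFunction.coe_neg, Pi.neg_apply,
        BoundedContinuousFunction.add_apply, BoundedContinuousFunction.coe_smul, smul_eq_mul,
        BoundedContinuousFunction.coe_one, Pi.one_apply, mul_one]
      linarith
    rw [map_neg, map_add, map_smul, smul_eq_mul] at h1
    have h2 : -f ψ / (2 * f 1) * f 1 = -f ψ / 2 := by field_simp
    rw [h2] at h1
    linarith
  refine ⟨(k / f 1) • f, ?_, ?_⟩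
  · intro ψ hψ
    have := hpos ψ hψ
    simp only [FunLike.coe_smul, Pi.smul_apply, smul_eq_mul]
    positivity
  · intro x
    have h1 := hft (beta g z hz k x) ⟨[x], by simp⟩
    rw [beta, map_sub, map_smul, map_smul, smul_eq_mul, smul_eq_mul] at h1
    simp only [FunLike.coe_smul, Pi.smul_apply, smul_eq_mul]
    rw [div_mul_eq_mul_div, le_div_iff₀ hf1]
    linarith

/-- indicator of a point -/
noncomputable def dl (m : ℕ) : ℕ →ᵇ ℝ :=
  BoundedContinuousFunction.ofNormedAddCommGroupDiscrete (fun n => if n = m then 1 else 0) 1 (by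
    intro n; split_ifs <;> simp)

theorem dl_apply (m n : ℕ) : dl m n = if n = m then 1 else 0 := rfl

theorem sum_dl_apply (c : ℕ → ℝ) (s : Finset ℕ) (n : ℕ) :
    (∑ m ∈ s, c m • dl m) n = if n ∈ s then c n else 0 := by
  rw [BoundedContinuousFunction.coe_sum, Finset.sum_apply]
  simp only [BoundedContinuousFunction.coe_smul, smul_eq_mul, dl_apply, mul_ite, mul_one, mul_zero]
  rw [Finset.sum_ite_eq]

/-- Pietsch domination with a countably additive measure, for null coordinate sequences. -/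
theorem exists_measure (g : E →ₗ[𝕜] H) (z : ℕ → E →ₗ[𝕜] 𝕜)
    (hz : ∀ x, ∃ B : ℝ, ∀ n, ‖z n x‖ ≤ B)
    (hz0 : ∀ x, Tendsto (fun n => ‖z n x‖) atTop (𝓝 0)) (k : ℝ) (hk : 0 < k)
    (hL : ∀ (L : List E) (t : ℝ), 0 < t → (∀ n, (L.map fun s => ‖z n s‖ ^ 2).sum ≤ t) →
      (L.map fun s => ‖g s‖ ^ 2).sum ≤ k * t) :
    ∃ μ : ℕ → ℝ, (∀ n, 0 ≤ μ n) ∧ Summable μ ∧ ∀ x, ‖g x‖ ^ 2 ≤ ∑' n, μ n * ‖z n x‖ ^ 2 := by
  obtain ⟨f, hf, hfg⟩ := exists_functional g z hz k hk hL
  have hμ0 : ∀ n, 0 ≤ f (dl n) := fun n => hf _ fun m => by rw [dl_apply]; split_ifs <;> norm_num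
  have hμs : Summable fun n => f (dl n) := by
    refine summable_of_sum_le (c := f 1) hμ0 fun s => ?_
    have h1 : 0 ≤ f (1 - ∑ m ∈ s, (1 : ℝ) • dl m) := by
      apply hf
      intro n
      rw [BoundedContinuousFunction.sub_apply, sum_dl_apply (fun _ => 1)]
      split_ifs <;> simp
    rw [map_sub, map_sum] at h1
    simp only [one_smul] at h1
    linarith
  refine ⟨fun n => f (dl n), hμ0, hμs, fun x => (hfg x).trans ?_⟩
  obtain ⟨B, hB⟩ := hz x
  have hB0 : 0 ≤ B := (norm_nonneg _).trans (hB 0)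
  have hsum : Summable fun n => f (dl n) * ‖z n x‖ ^ 2 := by
    refine Summable.of_nonneg_of_le (fun n => mul_nonneg (hμ0 n) (by positivity)) (fun n => ?_)
      (hμs.mul_right (B ^ 2))
    have := hB n
    have := hμ0 n
    gcongr
  have hlim : Tendsto (fun N => ∑ m ∈ Finset.range N, (‖z m x‖ ^ 2) • dl m) atTop
      (𝓝 (phi z hz x)) := by
    rw [Metric.tendsto_atTop]
    intro ε hε
    obtain ⟨N, hN⟩ := (Metric.tendsto_atTop.1 (hz0 x)) (√(ε / 2)) (by positivity)
    refine ⟨N, fun M hM => ?_⟩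
    refine lt_of_le_of_lt ?_ (half_lt_self hε)
    rw [BoundedContinuousFunction.dist_le (by positivity)]
    intro n
    rw [sum_dl_apply (fun m => ‖z m x‖ ^ 2), phi_apply]
    split_ifs with h
    · rw [dist_self]; positivity
    · rw [Finset.mem_range, not_lt] at h
      have h2 := hN n (hM.trans h)
      rw [Real.dist_eq, sub_zero, abs_norm] at h2
      rw [Real.dist_eq, zero_sub, abs_neg, abs_of_nonneg (by positivity)]
      calc ‖z n x‖ ^ 2 ≤ √(ε / 2) ^ 2 := by gcongr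
        _ = ε / 2 := Real.sq_sqrt (by positivity)
  have hlim2 := (f.continuous.tendsto _).comp hlim
  refine le_of_tendsto' hlim2 fun N => ?_
  simp only [Function.comp_apply, map_sum, map_smul, smul_eq_mul]
  refine le_trans (le_of_eq ?_) (hsum.sum_le_tsum (Finset.range N)
    (fun n _ => mul_nonneg (hμ0 n) (by positivity)))
  exact Finset.sum_congr rfl fun n _ => mul_comm _ _


end pietsch

/-! ### Extensions through Hilbert spaces -/
section extensions


variable {𝕜 : Type*} [RCLike 𝕜]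

theorem exists_measure' {E H : Type*} [AddCommGroup E] [Module 𝕜 E]
    [NormedAddCommGroup H] [InnerProductSpace 𝕜 H]
    (g : E →ₗ[𝕜] H) (z : ℕ → E →ₗ[𝕜] 𝕜) (C : ℝ) (hC : 0 ≤ C)
    (hz : ∀ x, ∃ B : ℝ, ∀ n, ‖z n x‖ ≤ B)
    (hz0 : ∀ x, Tendsto (fun n => ‖z n x‖) atTop (𝓝 0))
    (hg : ∀ x (B : ℝ), 0 ≤ B → (∀ n, ‖z n x‖ ≤ B * w n) → ‖g x‖ ≤ C * B) :
    ∃ μ : ℕ → ℝ, (∀ n, 0 ≤ μ n) ∧ Summable μ ∧ ∀ x, ‖g x‖ ^ 2 ≤ ∑' n, μ n * ‖z n x‖ ^ 2 := by
  refine exists_measure g z hz hz0 (K C + 1) (by linarith [K_nonneg C]) fun L t ht hL => ?_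
  have h1 := two_summing g z C hC hz hg L t ht hL
  linarith

/-- Factorisation through a subspace of a Hilbert space and orthogonal projection. -/
theorem factor {S K H : Type*} [AddCommGroup S] [Module 𝕜 S]
    [NormedAddCommGroup K] [InnerProductSpace 𝕜 K] [CompleteSpace K]
    [NormedAddCommGroup H] [NormedSpace 𝕜 H] [CompleteSpace H]
    (A : S →ₗ[𝕜] K) (g : S →ₗ[𝕜] H) (h : ∀ s, ‖g s‖ ≤ ‖A s‖) :
    ∃ B : K →L[𝕜] H, ∀ s, B (A s) = g s := by
  set R := (LinearMap.range A).topologicalClosure with hR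
  have hmem : ∀ s, A s ∈ R := fun s =>
    Submodule.le_topologicalClosure _ (LinearMap.mem_range_self A s)
  have : CompleteSpace R := (Submodule.isClosed_topologicalClosure _).completeSpace_coe
  set e : S →ₗ[𝕜] R := A.codRestrict R hmem with he
  have hdense : DenseRange e := by
    intro y
    rw [Metric.mem_closure_iff]
    intro ε hε
    have hy : (y : K) ∈ closure (LinearMap.range A : Set K) := y.2
    rw [Metric.mem_closure_iff] at hy
    obtain ⟨b, ⟨s, rfl⟩, hb⟩ := hy ε hε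
    exact ⟨e s, ⟨s, rfl⟩, hb⟩
  have hnorm : ∃ C, ∀ x, ‖g x‖ ≤ C * ‖e x‖ := ⟨1, fun x => by
    rw [one_mul]; exact h x⟩
  refine ⟨(g.extendOfNorm e).comp R.orthogonalProjectionOnto, fun s => ?_⟩
  rw [ContinuousLinearMap.comp_apply]
  have : R.orthogonalProjectionOnto (A s) = e s :=
    Submodule.orthogonalProjectionOnto_mem_subspace_eq_self (e s)
  rw [this, LinearMap.extendOfNorm_eq hdense hnorm]

/-- The Hilbert space valued map attached to a family of functionals dominated by a continuous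
seminorm and a summable sequence of weights. -/
theorem exists_hilbert_map {W : Type*} [AddCommGroup W] [Module 𝕜 W] [TopologicalSpace W]
    [IsTopologicalAddGroup W] (P : Seminorm 𝕜 W) (hP : Continuous P)
    (Φ : ℕ → W →ₗ[𝕜] 𝕜) (hΦ : ∀ n x, ‖Φ n x‖ ≤ P x)
    (μ : ℕ → ℝ) (hμ0 : ∀ n, 0 ≤ μ n) (hμ : Summable μ) :
    ∃ T : W →L[𝕜] lp (fun _ : ℕ => 𝕜) 2, ∀ x, ‖T x‖ ^ 2 = ∑' n, μ n * ‖Φ n x‖ ^ 2 := by
  have hs : ∀ x, Summable fun n => μ n * ‖Φ n x‖ ^ 2 := by
    intro x
    refine Summable.of_nonneg_of_le (fun n => mul_nonneg (hμ0 n) (by positivity)) (fun n => ?_)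
      (hμ.mul_right ((P x) ^ 2))
    have := hΦ n x
    have := hμ0 n
    gcongr
  have hn : ∀ n x, ‖((√(μ n) : ℝ) : 𝕜) * Φ n x‖ ^ 2 = μ n * ‖Φ n x‖ ^ 2 := by
    intro n x
    rw [norm_mul, mul_pow, RCLike.norm_ofReal, sq_abs, Real.sq_sqrt (hμ0 n)]
  have hmem : ∀ x, Memℓp (fun n => ((√(μ n) : ℝ) : 𝕜) * Φ n x) 2 := by
    intro x
    apply memℓp_gen
    simp only [ENNReal.toReal_ofNat, Real.rpow_ofNat, hn]
    exact hs x
  let T₀ : W →ₗ[𝕜] lp (fun _ : ℕ => 𝕜) 2 :=
    { toFun := fun x => ⟨fun n => ((√(μ n) : ℝ) : 𝕜) * Φ n x, hmem x⟩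
      map_add' := by
        intro x y
        apply Subtype.ext
        funext n
        simp only [map_add, mul_add]
        rfl
      map_smul' := by
        intro c x
        ext n
        simp [mul_left_comm] }
  have hT : ∀ x, ‖T₀ x‖ ^ 2 = ∑' n, μ n * ‖Φ n x‖ ^ 2 := by
    intro x
    have h1 := lp.norm_rpow_eq_tsum (p := 2) (by norm_num) (T₀ x)
    simp only [ENNReal.toReal_ofNat, Real.rpow_ofNat] at h1
    rw [h1]
    exact tsum_congr fun n => hn n x
  have hbound : ∀ x, ‖T₀ x‖ ≤ √(∑' n, μ n) * P x := by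
    intro x
    have h0 : 0 ≤ ∑' n, μ n := tsum_nonneg hμ0
    apply le_of_sq_le_sq _ (mul_nonneg (Real.sqrt_nonneg _) (apply_nonneg P x))
    rw [hT, mul_pow, Real.sq_sqrt h0, ← tsum_mul_right]
    refine (hs x).tsum_le_tsum (fun n => ?_) (hμ.mul_right _)
    have := hΦ n x
    have := hμ0 n
    gcongr
  have hcont : Continuous T₀ := by
    apply continuous_of_continuousAt_zero T₀
    rw [ContinuousAt, map_zero, tendsto_zero_iff_norm_tendsto_zero]
    have h1 : Tendsto (fun x => √(∑' n, μ n) * P x) (𝓝 0) (𝓝 0) := by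
      have h2 : Continuous (fun x => √(∑' n, μ n) * P x) := continuous_const.mul hP
      have := h2.tendsto 0
      simpa using this
    exact squeeze_zero (fun x => norm_nonneg _) hbound h1
  exact ⟨⟨T₀, hcont⟩, hT⟩


end extensions

/-! ### The space -/
section space

variable (𝕜 : Type) [RCLike 𝕜]

/-- division by the weight -/
noncomputable def V : (ℕ →ᵇ 𝕜) →L[𝕜] (ℕ →ᵇ 𝕜) :=
  LinearMap.mkContinuous
    { toFun := fun f => BoundedContinuousFunction.ofNormedAddCommGroupDiscrete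
        (fun n => (w n)⁻¹ • f n) ‖f‖ (by
          intro n
          rw [norm_smul, norm_inv, Real.norm_of_nonneg (by linarith [one_le_w n])]
          calc (w n)⁻¹ * ‖f n‖ ≤ 1 * ‖f‖ := by
                gcongr
                · exact inv_le_one_of_one_le₀ (one_le_w n)
                · exact f.norm_coe_le_norm _
            _ = ‖f‖ := one_mul _)
      map_add' := by intro f g; ext n; simp [smul_add]
      map_smul' := by
        intro c f; ext n
        simp }
    1 (by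
      intro f
      rw [one_mul]
      refine (BoundedContinuousFunction.norm_le (norm_nonneg _)).2 fun n => ?_
      have h := one_le_w n
      change ‖(w n)⁻¹ • f n‖ ≤ _
      rw [norm_smul, norm_inv, Real.norm_of_nonneg (by linarith [one_le_w n])]
      calc (w n)⁻¹ * ‖f n‖ ≤ 1 * ‖f‖ := by
            gcongr
            · exact inv_le_one_of_one_le₀ h
            · exact f.norm_coe_le_norm _
        _ = ‖f‖ := one_mul _)

theorem V_apply (f : ℕ →ᵇ 𝕜) (n : ℕ) : V 𝕜 f n = (w n)⁻¹ • f n := rfl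

theorem V_norm_le : ‖V 𝕜‖ ≤ 1 := LinearMap.mkContinuous_norm_le _ zero_le_one _

/-- The space of all `x` with `sup_n w(n)^m |x_n| < ∞` for every `m`, coded by the sequences
`f m = w^m x` of bounded functions. -/
def X : Submodule 𝕜 (ℕ → (ℕ →ᵇ 𝕜)) where
  carrier := {f | ∀ k, f k = V 𝕜 (f (k + 1))}
  add_mem' := by
    intro a b ha hb k
    simp only [Set.mem_ofPred_eq] at ha hb
    simp [ha k, hb k]
  zero_mem' := by intro k; simp
  smul_mem' := by
    intro c a ha k
    simp only [Set.mem_ofPred_eq] at ha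
    simp [ha k]

theorem X_closed : IsClosed (X 𝕜 : Set (ℕ → (ℕ →ᵇ 𝕜))) := by
  have : (X 𝕜 : Set (ℕ → (ℕ →ᵇ 𝕜))) = ⋂ k, {f | f k = V 𝕜 (f (k + 1))} := by
    ext f
    simp only [X, Submodule.coe_set_mk, AddSubmonoid.coe_set_mk, AddSubsemigroup.coe_set_mk,
      Set.mem_ofPred_eq, Set.mem_iInter]
  rw [this]
  refine isClosed_iInter fun k => ?_
  exact isClosed_eq (continuous_apply k) ((V 𝕜).continuous.comp (continuous_apply (k + 1)))

variable {𝕜}

theorem X_rel (f : X 𝕜) (k n : ℕ) : f.1 k n = (w n)⁻¹ • f.1 (k + 1) n := by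
  conv_lhs => rw [f.2 k]
  rfl

/-- the seminorm `‖f m‖` -/
noncomputable def semi (m : ℕ) : Seminorm 𝕜 (X 𝕜) :=
  (normSeminorm 𝕜 (ℕ →ᵇ 𝕜)).comp
    ((LinearMap.proj m : (ℕ → (ℕ →ᵇ 𝕜)) →ₗ[𝕜] (ℕ →ᵇ 𝕜)).comp (X 𝕜).subtype)

theorem semi_apply (m : ℕ) (f : X 𝕜) : semi m f = ‖f.1 m‖ := rfl

theorem semi_mono : Monotone (semi : ℕ → Seminorm 𝕜 (X 𝕜)) := by
  refine monotone_nat_of_le_succ fun m => ?_
  intro f
  rw [semi_apply, semi_apply, f.2 m]
  calc ‖V 𝕜 (f.1 (m + 1))‖ ≤ ‖V 𝕜‖ * ‖f.1 (m + 1)‖ := (V 𝕜).le_opNorm _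
    _ ≤ 1 * ‖f.1 (m + 1)‖ := by gcongr; exact V_norm_le 𝕜
    _ = _ := one_mul _

instance : IsUniformAddGroup (X 𝕜) := (X 𝕜).toAddSubgroup.isUniformAddGroup

theorem semi_with : WithSeminorms (semi : ℕ → Seminorm 𝕜 (X 𝕜)) := by
  rw [SeminormFamily.withSeminorms_iff_nhds_eq_iInf]
  rw [nhds_subtype_eq_comap, ZeroMemClass.coe_zero, nhds_pi, Filter.pi, Filter.comap_iInf]
  refine iInf_congr fun m => ?_
  rw [Filter.comap_comap, Pi.zero_apply, ← comap_norm_nhds_zero, Filter.comap_comap]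
  rfl

theorem X_frechet : IsFrechet 𝕜 (X 𝕜) where
  uniformAddGroup := inferInstance
  hausdorff := inferInstance
  complete := (X_closed 𝕜).completeSpace_coe
  seminorms := ⟨semi, semi_mono, semi_with⟩

/-- coordinates -/
noncomputable def co (m n : ℕ) : X 𝕜 →ₗ[𝕜] 𝕜 where
  toFun f := f.1 m n
  map_add' f g := rfl
  map_smul' c f := rfl

theorem co_apply (m n : ℕ) (f : X 𝕜) : co m n f = f.1 m n := rfl

theorem co_le (m n : ℕ) (f : X 𝕜) : ‖co m n f‖ ≤ semi m f := (f.1 m).norm_coe_le_norm n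

theorem w_tendsto : Tendsto w atTop atTop := by
  unfold w
  apply tendsto_atTop_add_const_left
  exact Real.tendsto_log_atTop.comp
    (tendsto_atTop_add_const_right _ _ tendsto_natCast_atTop_atTop)

theorem co_tendsto (m : ℕ) (f : X 𝕜) : Tendsto (fun n => ‖co m n f‖) atTop (𝓝 0) := by
  have h1 : Tendsto (fun n => (w n)⁻¹ * semi (m + 1) f) atTop (𝓝 0) := by
    have := w_tendsto.inv_tendsto_atTop.mul_const (semi (m + 1) f)
    simpa using this
  refine squeeze_zero (fun n => norm_nonneg _) (fun n => ?_) h1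
  have hw := one_le_w n
  rw [co_apply, X_rel, norm_smul, norm_inv, Real.norm_of_nonneg (by linarith)]
  gcongr
  exact co_le (m + 1) n f

/-- Bound of a continuous map on a subspace by one of the seminorms. -/
theorem bound_sub {H : Type*} [NormedAddCommGroup H] [InnerProductSpace 𝕜 H]
    (Y : Submodule 𝕜 (X 𝕜)) (g : Y →ₗ[𝕜] H) (hgc : Continuous g) :
    ∃ (m : ℕ) (C : ℝ), 0 ≤ C ∧ ∀ y : Y, ‖g y‖ ≤ C * semi m (y : X 𝕜) := by
  have hc : Continuous ((normSeminorm 𝕜 H).comp g : Seminorm 𝕜 Y) := by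
    change Continuous (fun x => ‖g x‖)
    exact hgc.norm
  obtain ⟨s, C, -, hsC⟩ := Seminorm.bound_comp_of_isInducing (E := Y) (f := Y.subtype) hc semi_with
    IsInducing.subtypeVal
  refine ⟨s.sup id, C, C.2, fun y => ?_⟩
  have h1 := hsC y
  refine h1.trans ?_
  have h2 : s.sup semi ≤ (semi (s.sup id) : Seminorm 𝕜 (X 𝕜)) :=
    Finset.sup_le fun i hi => semi_mono (Finset.le_sup (f := id) hi)
  have h3 := h2 (y : X 𝕜)
  change (C : ℝ) * (s.sup semi) (y : X 𝕜) ≤ _
  gcongr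

/-- The measure dominating a continuous map on a subspace. -/
theorem measure_sub {H : Type*} [NormedAddCommGroup H] [InnerProductSpace 𝕜 H]
    (Y : Submodule 𝕜 (X 𝕜)) (g : Y →ₗ[𝕜] H) (hgc : Continuous g) :
    ∃ (m : ℕ) (μ : ℕ → ℝ), (∀ n, 0 ≤ μ n) ∧ Summable μ ∧
      ∀ y : Y, ‖g y‖ ^ 2 ≤ ∑' n, μ n * ‖co m n (y : X 𝕜)‖ ^ 2 := by
  obtain ⟨m, C, hC, hg⟩ := bound_sub Y g hgc
  set z : ℕ → Y →ₗ[𝕜] 𝕜 := fun n => (co (m + 1) n).comp Y.subtype with hzdef
  have hzy : ∀ n (y : Y), z n y = co (m + 1) n (y : X 𝕜) := fun n y => rfl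
  obtain ⟨μ, h0, hs, hμ⟩ := exists_measure' (E := Y) (H := H) g z C hC
    (fun y => ⟨semi (m + 1) (y : X 𝕜), fun n => by rw [hzy]; exact co_le _ _ _⟩)
    (fun y => by simp only [hzy]; exact co_tendsto (m + 1) (y : X 𝕜))
    (by
      intro y B hB h
      refine (hg y).trans ?_
      have : semi m (y : X 𝕜) ≤ B := by
        rw [semi_apply, BoundedContinuousFunction.norm_le hB]
        intro n
        have hw := one_le_w n
        rw [X_rel, norm_smul, norm_inv, Real.norm_of_nonneg (by linarith),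
          inv_mul_le_iff₀ (by linarith), mul_comm]
        exact h n
      gcongr)
  exact ⟨m + 1, μ, h0, hs, hμ⟩

theorem sqrt_le {a b : ℝ} (hb : 0 ≤ b) (h : a ^ 2 ≤ b ^ 2) : a ≤ b := le_of_sq_le_sq h hb

theorem ext_sub {H : Type*} [NormedAddCommGroup H] [InnerProductSpace 𝕜 H] [CompleteSpace H]
    (Y : Submodule 𝕜 (X 𝕜)) (g : Y →ₗ[𝕜] H) (hgc : Continuous g) :
    ∃ f : X 𝕜 →L[𝕜] H, ∀ y : Y, f y = g y := by
  obtain ⟨m, μ, h0, hs, hμ⟩ := measure_sub Y g hgc
  obtain ⟨T, hT⟩ := exists_hilbert_map (semi m : Seminorm 𝕜 (X 𝕜))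
    (semi_with.continuous_seminorm m) (fun n => co m n) (fun n x => co_le m n x) μ h0 hs
  obtain ⟨B, hB⟩ := factor (S := Y) (H := H) (T.toLinearMap.comp Y.subtype) g (fun y => by
    apply sqrt_le (norm_nonneg _)
    refine (hμ y).trans (le_of_eq ?_)
    exact (hT (y : X 𝕜)).symm)
  exact ⟨B.comp T, fun y => hB y⟩

theorem X_cond1 : SubspaceExtension 𝕜 (X 𝕜) := fun Y g =>
  ext_sub (H := Ell2 𝕜) Y g.toLinearMap g.continuous

theorem ext_super {H : Type*} [NormedAddCommGroup H] [InnerProductSpace 𝕜 H] [CompleteSpace H]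
    {W : Type v} [AddCommGroup W] [Module 𝕜 W] [UniformSpace W] (hW : IsFrechet 𝕜 W)
    (i : X 𝕜 →ₗ[𝕜] W) (hi : IsEmbedding i) (g : X 𝕜 →ₗ[𝕜] H) (hgc : Continuous g) :
    ∃ f : W →L[𝕜] H, ∀ x : X 𝕜, f (i x) = g x := by
  obtain ⟨m, μ, h0, hs, hμ⟩ := measure_sub (⊤ : Submodule 𝕜 (X 𝕜))
    (g.comp (⊤ : Submodule 𝕜 (X 𝕜)).subtype) (hgc.comp continuous_subtype_val)
  have := hW.uniformAddGroup
  obtain ⟨p, -, hp⟩ := hW.seminorms
  have := hp.toPolynormableSpace
  obtain ⟨P, hPc, hP⟩ := Seminorm.exists_le_comp_of_isInducing (f := i)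
    (p := (semi m : Seminorm 𝕜 (X 𝕜))) (semi_with.continuous_seminorm m) hi.isInducing
  have hext : ∀ n, ∃ φ : W →ₗ[𝕜] 𝕜, (∀ x : X 𝕜, φ (i x) = co m n x) ∧ ∀ x, ‖φ x‖ ≤ P x := by
    intro n
    have hinj : Injective i := hi.injective
    obtain ⟨φ, h1, h2⟩ := Module.Dual.exists_extension_of_le_seminorm
      (LinearMap.range i)
      ((co m n).comp (LinearEquiv.ofInjective i hinj).symm.toLinearMap) (p := P) (by
        rintro ⟨x, y, rfl⟩
        have : (LinearEquiv.ofInjective i hinj).symm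
            ⟨i y, y, rfl⟩ = y := by
          apply (LinearEquiv.ofInjective i hinj).injective
          rw [LinearEquiv.apply_symm_apply]
          rfl
        rw [LinearMap.comp_apply, LinearEquiv.coe_coe, this]
        exact (co_le m n y).trans (hP y))
    refine ⟨φ, fun x => ?_, h2⟩
    have h3 := h1 ⟨i x, x, rfl⟩
    have : (LinearEquiv.ofInjective i hinj).symm
        ⟨i x, x, rfl⟩ = x := by
      apply (LinearEquiv.ofInjective i hinj).injective
      rw [LinearEquiv.apply_symm_apply]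
      rfl
    rw [LinearMap.comp_apply, LinearEquiv.coe_coe, this] at h3
    exact h3
  choose Φ hΦ1 hΦ2 using hext
  obtain ⟨T, hT⟩ := exists_hilbert_map P hPc Φ hΦ2 μ h0 hs
  obtain ⟨B, hB⟩ := factor (S := X 𝕜) (H := H) (T.toLinearMap.comp i) g (fun x => by
    apply sqrt_le (norm_nonneg _)
    refine (hμ ⟨x, trivial⟩).trans (le_of_eq ?_)
    have h1 := hT (i x)
    simp only [hΦ1] at h1
    exact h1.symm)
  exact ⟨B.comp T, fun x => hB x⟩

theorem X_cond2 : SuperspaceExtension.{0, v} 𝕜 (X 𝕜) := by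
  intro W _ _ _ hW i hi g
  exact ext_super (H := Ell2 𝕜) hW i.toLinearMap hi g.toLinearMap g.continuous

end space


/-! ### The space is not nuclear -/
section not_nuclear


variable {𝕜 : Type} [RCLike 𝕜]

/-- `∑_{n<N} θ_n w_n^k δ_n` as a bounded function -/
noncomputable def bump (θ : ℕ → 𝕜) (N k : ℕ) : ℕ →ᵇ 𝕜 :=
  BoundedContinuousFunction.ofNormedAddCommGroupDiscrete
    (fun n => if n < N then ((w n ^ k : ℝ) : 𝕜) * θ n else 0)
    (∑ n ∈ Finset.range N, ‖((w n ^ k : ℝ) : 𝕜) * θ n‖) (by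
      intro n
      split_ifs with h
      · exact Finset.single_le_sum (f := fun n => ‖((w n ^ k : ℝ) : 𝕜) * θ n‖)
          (fun m _ => norm_nonneg _) (Finset.mem_range.2 h)
      · rw [norm_zero]
        exact Finset.sum_nonneg fun m _ => norm_nonneg _)

theorem bump_apply (θ : ℕ → 𝕜) (N k n : ℕ) :
    bump θ N k n = if n < N then ((w n ^ k : ℝ) : 𝕜) * θ n else 0 := rfl

theorem w_pos (n : ℕ) : 0 < w n := lt_of_lt_of_le one_pos (one_le_w n)

/-- the corresponding element of `X` -/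
noncomputable def el (θ : ℕ → 𝕜) (N : ℕ) : X 𝕜 := ⟨fun k => bump θ N k, by
  intro k
  ext n
  rw [V_apply, bump_apply, bump_apply]
  split_ifs with h
  · have := w_pos n
    rw [RCLike.real_smul_eq_coe_mul, ← mul_assoc, ← RCLike.ofReal_mul]
    congr 2
    rw [pow_succ]
    field_simp
  · rw [smul_zero]⟩

theorem el_apply (θ : ℕ → 𝕜) (N k n : ℕ) :
    (el θ N).1 k n = if n < N then ((w n ^ k : ℝ) : 𝕜) * θ n else 0 := rfl

theorem w_mono : Monotone w := by
  intro a b hab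
  unfold w
  have h1 : (0 : ℝ) < (a : ℝ) + 1 := by positivity
  have h2 : (a : ℝ) + 1 ≤ (b : ℝ) + 1 := by
    have : (a : ℝ) ≤ b := by exact_mod_cast hab
    linarith
  linarith [Real.log_le_log h1 h2]

theorem semi_el_le (θ : ℕ → 𝕜) (hθ : ∀ n, ‖θ n‖ ≤ 1) (N k : ℕ) :
    semi k (el θ N) ≤ w N ^ k := by
  have hN := w_pos N
  rw [semi_apply, BoundedContinuousFunction.norm_le (by positivity)]
  intro n
  rw [el_apply]
  split_ifs with h
  · rw [norm_mul, RCLike.norm_ofReal]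
    have hn := w_pos n
    rw [abs_of_nonneg (by positivity)]
    calc w n ^ k * ‖θ n‖ ≤ w N ^ k * 1 := by
          gcongr
          · exact w_mono h.le
          · exact hθ n
      _ = _ := mul_one _
  · rw [norm_zero]; positivity

/-- the unit vectors -/
noncomputable def e (n : ℕ) : X 𝕜 := el (fun m => if m = n then 1 else 0) (n + 1)

theorem e_apply (n m : ℕ) : (e n : X 𝕜).1 0 m = if m = n then 1 else 0 := by
  rw [e, el_apply]
  by_cases h : m = n
  · subst h; simp
  · simp [h]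

theorem el_eq_sum (θ : ℕ → 𝕜) (N : ℕ) : el θ N = ∑ n ∈ Finset.range N, θ n • (e n : X 𝕜) := by
  apply Subtype.ext
  funext k
  ext m
  rw [el_apply]
  have h1 : ((∑ n ∈ Finset.range N, θ n • (e n : X 𝕜) : X 𝕜)).1 k m =
      ∑ n ∈ Finset.range N, θ n * ((e n : X 𝕜).1 k m) := by
    have := map_sum (co k m : X 𝕜 →ₗ[𝕜] 𝕜) (fun n => θ n • (e n : X 𝕜)) (Finset.range N)
    simp only [map_smul, smul_eq_mul] at this
    exact this
  rw [h1]
  have h2 : ∀ n, θ n * ((e n : X 𝕜).1 k m) = if m = n then ((w m ^ k : ℝ) : 𝕜) * θ m else 0 := by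
    intro n
    rw [e, el_apply]
    by_cases h : m = n
    · subst h; simp [mul_comm]
    · simp [h]
  rw [Finset.sum_congr rfl fun n _ => h2 n, Finset.sum_ite_eq]
  simp

theorem log_bound (m : ℕ) (D : ℝ) (h : ∀ N : ℕ, (N : ℝ) ≤ D * w N ^ m) : False := by
  have hD : 0 < D := by
    have h1 := h 1
    have h2 : 0 < w 1 ^ m := pow_pos (w_pos 1) m
    by_contra hneg
    push Not at hneg
    have : D * w 1 ^ m ≤ 0 := mul_nonpos_of_nonpos_of_nonneg hneg h2.le
    push_cast at h1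
    linarith
  have hlo := (Real.isLittleO_pow_log_id_atTop (n := m)).def
    (show (0 : ℝ) < 1 / (4 * D * Real.exp 1) by positivity)
  have ht : Tendsto (fun N : ℕ => Real.exp 1 * ((N : ℝ) + 1)) atTop atTop := by
    apply Tendsto.const_mul_atTop (Real.exp_pos 1)
    exact tendsto_atTop_add_const_right _ _ tendsto_natCast_atTop_atTop
  obtain ⟨N, hN1, hN2⟩ := ((ht.eventually hlo).and (eventually_ge_atTop 1)).exists
  have hlog : Real.log (Real.exp 1 * ((N : ℝ) + 1)) = w N := by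
    rw [Real.log_mul (Real.exp_pos 1).ne' (by positivity), Real.log_exp]
    rfl
  rw [hlog, Real.norm_of_nonneg (pow_pos (w_pos N) m).le] at hN1
  simp only [id] at hN1
  rw [Real.norm_of_nonneg (by positivity)] at hN1
  have h3 := h N
  have hN3 : (1 : ℝ) ≤ N := by exact_mod_cast hN2
  have h4 : D * w N ^ m ≤ D * (1 / (4 * D * Real.exp 1) * (Real.exp 1 * ((N : ℝ) + 1))) := by
    gcongr
  have h5 : D * (1 / (4 * D * Real.exp 1) * (Real.exp 1 * ((N : ℝ) + 1))) = ((N : ℝ) + 1) / 4 := by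
    field_simp
  linarith

/-- Functionals dominated by `p` extend to the completion. -/
theorem exists_local' {E : Type} [AddCommGroup E] [Module 𝕜 E] (p : Seminorm 𝕜 E)
    (l : E →ₗ[𝕜] 𝕜) (hl : ∀ x, ‖l x‖ ≤ p x) :
    ∃ φ : UniformSpace.Completion (WithSN p) →L[𝕜] 𝕜,
      (∀ x : E, φ ((show WithSN p from x : WithSN p) : UniformSpace.Completion (WithSN p)) = l x) ∧
      ∀ y, ‖φ y‖ ≤ ‖y‖ := by
  let c₀ : WithSN p →ₗ[𝕜] 𝕜 :=
    { toFun := fun x => l (show E from x)
      map_add' := fun x y => l.map_add x y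
      map_smul' := fun c x => l.map_smul c x }
  let c : WithSN p →L[𝕜] 𝕜 := c₀.mkContinuous 1 (by
    intro x
    rw [one_mul]
    exact hl x)
  have hc : ∀ x, ‖c x‖ ≤ ‖x‖ := fun x => hl x
  set φ := c.extend (UniformSpace.Completion.toComplL :
    WithSN p →L[𝕜] UniformSpace.Completion (WithSN p)) with hφ
  have h1 : ∀ x : WithSN p,
      φ (x : UniformSpace.Completion (WithSN p)) = c x := fun x =>
    c.extend_eq (e := UniformSpace.Completion.toComplL) UniformSpace.Completion.denseRange_coe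
      (UniformSpace.Completion.isUniformInducing_coe _) x
  refine ⟨φ, fun x => h1 x, fun y => ?_⟩
  induction y using UniformSpace.Completion.induction_on with
  | hp => exact isClosed_le φ.continuous.norm continuous_norm
  | ih y =>
    rw [h1, UniformSpace.Completion.norm_coe]
    exact hc y

/-- Functionals dominated by `p` extend to the local Banach space of `p`. -/
theorem exists_local {E : Type} [AddCommGroup E] [Module 𝕜 E] (p : Seminorm 𝕜 E)
    (l : E →ₗ[𝕜] 𝕜) (hl : ∀ x, ‖l x‖ ≤ p x) :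
    ∃ φ : LocalBanach p →L[𝕜] 𝕜, (∀ x : E, φ (toLocal p x) = l x) ∧ ∀ y, ‖φ y‖ ≤ ‖y‖ :=
  exists_local' p l hl

theorem toLocal_smul {E : Type} [AddCommGroup E] [Module 𝕜 E] (q : Seminorm 𝕜 E)
    (c : 𝕜) (x : E) : toLocal q (c • x) = c • toLocal q x :=
  UniformSpace.Completion.coe_smul c (show WithSN q from x)

theorem toLocal_add {E : Type} [AddCommGroup E] [Module 𝕜 E] (q : Seminorm 𝕜 E)
    (x y : E) : toLocal q (x + y) = toLocal q x + toLocal q y :=
  UniformSpace.Completion.coe_add (show WithSN q from x) (show WithSN q from y)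

theorem toLocal_zero {E : Type} [AddCommGroup E] [Module 𝕜 E] (q : Seminorm 𝕜 E) :
    toLocal q (0 : E) = 0 := UniformSpace.Completion.coe_zero (α := WithSN q)

theorem toLocal_sum {E : Type} [AddCommGroup E] [Module 𝕜 E] (q : Seminorm 𝕜 E)
    (θ : ℕ → 𝕜) (e : ℕ → E) (t : Finset ℕ) : toLocal q (∑ n ∈ t, θ n • e n) =
    ∑ n ∈ t, θ n • toLocal q (e n) := by
  classical
  induction t using Finset.induction_on with
  | empty => simp [toLocal_zero]
  | insert n t hn ih =>
    rw [Finset.sum_insert hn, Finset.sum_insert hn, toLocal_add, toLocal_smul, ih]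

theorem norm_toLocal {E : Type} [AddCommGroup E] [Module 𝕜 E] (q : Seminorm 𝕜 E) (x : E) :
    ‖toLocal q x‖ = q x := UniformSpace.Completion.norm_coe _

theorem not_nuclear {E : Type} [AddCommGroup E] [Module 𝕜 E] [TopologicalSpace E]
    (p : ℕ → Seminorm 𝕜 E) (hp : WithSeminorms p) (hmono : Monotone p)
    (c : ℕ → E →ₗ[𝕜] 𝕜) (hc : ∀ n x, ‖c n x‖ ≤ p 0 x) (e : ℕ → E) (hce : ∀ n, c n (e n) = 1)
    (he : ∀ (θ : ℕ → 𝕜), (∀ n, ‖θ n‖ ≤ 1) → ∀ N m,
      p m (∑ n ∈ Finset.range N, θ n • e n) ≤ w N ^ m) :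
    ¬ IsNuclearSpace 𝕜 E := by
  intro hnuc
  obtain ⟨q, hq, -, T, hT, f, y, hsum, hTf⟩ := hnuc (p 0) (hp.continuous_seminorm 0)
  obtain ⟨s, C, -, hsC⟩ := Seminorm.bound_of_continuous hp q hq
  set m := s.sup id with hm
  have hqm : ∀ x : E, q x ≤ C * p m x := by
    intro x
    refine (hsC x).trans ?_
    have h2 : s.sup p ≤ p (s.sup id) :=
      Finset.sup_le fun i hi => hmono (Finset.le_sup (f := id) hi)
    have h3 := h2 x
    change (C : ℝ) * (s.sup p) x ≤ _
    gcongr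
  have hcoord := fun n => exists_local (p 0) (c n) (hc n)
  choose φ hφ1 hφ2 using hcoord
  set ν : ℝ := ∑' j, ‖f j‖ * ‖y j‖ with hν
  refine log_bound m (C * ν) fun N => ?_
  -- the trace identity
  have h1 : ∀ n, HasSum (fun j => f j (toLocal q (e n)) * φ n (y j)) 1 := by
    intro n
    have h2 := (φ n).hasSum (hTf (toLocal q (e n)))
    rw [hT, hφ1, hce] at h2
    refine h2.congr_fun ?_
    intro j
    rw [map_smul, smul_eq_mul]
  have h2 : HasSum (fun j => ∑ n ∈ Finset.range N, f j (toLocal q (e n)) * φ n (y j)) (N : 𝕜) := by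
    have := hasSum_sum (s := Finset.range N) fun n _ => h1 n
    simpa using this
  have h3 : ∀ j, ‖∑ n ∈ Finset.range N, f j (toLocal q (e n)) * φ n (y j)‖ ≤
      (C * w N ^ m) * (‖f j‖ * ‖y j‖) := by
    intro j
    -- choose the signs
    have hθ : ∀ n, ∃ θ : 𝕜, ‖θ‖ ≤ 1 ∧ θ * f j (toLocal q (e n)) =
        ((‖f j (toLocal q (e n))‖ : ℝ) : 𝕜) := by
      intro n
      set a := f j (toLocal q (e n))
      by_cases ha : a = 0
      · exact ⟨0, by simp, by simp [ha]⟩
      · have han : ‖a‖ ≠ 0 := norm_ne_zero_iff.2 ha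
        refine ⟨((‖a‖ : ℝ) : 𝕜) * a⁻¹, ?_, ?_⟩
        · rw [norm_mul, RCLike.norm_ofReal, abs_norm, norm_inv, mul_inv_cancel₀ han]
        · rw [mul_assoc, inv_mul_cancel₀ ha, mul_one]
    choose θ hθ1 hθ2 using hθ
    have h4 : ∑ n ∈ Finset.range N, ‖f j (toLocal q (e n))‖ ≤ ‖f j‖ * (C * w N ^ m) := by
      have h5 : f j (toLocal q (∑ n ∈ Finset.range N, θ n • e n)) =
          ((∑ n ∈ Finset.range N, ‖f j (toLocal q (e n))‖ : ℝ) : 𝕜) := by
        rw [toLocal_sum, map_sum, RCLike.ofReal_sum]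
        refine Finset.sum_congr rfl fun n _ => ?_
        rw [map_smul, smul_eq_mul, hθ2]
      have h6 : ‖f j (toLocal q (∑ n ∈ Finset.range N, θ n • e n))‖ =
          ∑ n ∈ Finset.range N, ‖f j (toLocal q (e n))‖ := by
        rw [h5, RCLike.norm_ofReal, abs_of_nonneg (Finset.sum_nonneg fun n _ => norm_nonneg _)]
      rw [← h6]
      calc ‖f j (toLocal q (∑ n ∈ Finset.range N, θ n • e n))‖
          ≤ ‖f j‖ * ‖toLocal q (∑ n ∈ Finset.range N, θ n • e n)‖ := (f j).le_opNorm _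
        _ ≤ ‖f j‖ * (C * w N ^ m) := by
          rw [norm_toLocal]
          gcongr
          refine (hqm _).trans ?_
          gcongr
          exact he θ hθ1 N m
    calc ‖∑ n ∈ Finset.range N, f j (toLocal q (e n)) * φ n (y j)‖
        ≤ ∑ n ∈ Finset.range N, ‖f j (toLocal q (e n)) * φ n (y j)‖ := norm_sum_le _ _
      _ ≤ ∑ n ∈ Finset.range N, ‖f j (toLocal q (e n))‖ * ‖y j‖ := by
        refine Finset.sum_le_sum fun n _ => ?_
        rw [norm_mul]
        gcongr
        exact hφ2 n (y j)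
      _ = (∑ n ∈ Finset.range N, ‖f j (toLocal q (e n))‖) * ‖y j‖ := by rw [Finset.sum_mul]
      _ ≤ (‖f j‖ * (C * w N ^ m)) * ‖y j‖ := by gcongr
      _ = _ := by ring
  have h4 : ‖(N : 𝕜)‖ ≤ (C * w N ^ m) * ν := by
    rw [← h2.tsum_eq, hν, ← tsum_mul_left]
    exact tsum_of_norm_bounded (hsum.mul_left _).hasSum h3
  rw [RCLike.norm_natCast] at h4
  linarith

theorem X_not_nuclear : ¬ IsNuclearSpace 𝕜 (X 𝕜) :=
  not_nuclear semi semi_with semi_mono (co 0) (co_le 0) e
    (fun n => by rw [co_apply, e_apply, if_pos rfl])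
    (fun θ hθ N m => by rw [← el_eq_sum]; exact semi_el_le θ hθ N m)


end not_nuclear

/-- Over `ℝ` and over `ℂ` there is a non-nuclear Frechet space `X` such that continuous linear maps
into `ℓ₂` extend from every subspace of `X` to `X`, and from `X` to every Frechet superspace. -/
theorem result (𝕜 : Type) [RCLike 𝕜] :
    ∃ (X : Type) (_ : AddCommGroup X) (_ : Module 𝕜 X) (_ : UniformSpace X),
      IsFrechet 𝕜 X ∧ SubspaceExtension 𝕜 X ∧ SuperspaceExtension.{0, v} 𝕜 X ∧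
        ¬ IsNuclearSpace 𝕜 X :=
  ⟨X 𝕜, inferInstance, inferInstance, inferInstance, X_frechet, X_cond1, X_cond2, X_not_nuclear⟩

end Pool.Agent.Results.MP_e22ce5_an.SpadeNotNuclear
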